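import Pool.Agent.H98.DT.Ax
import Pool.Agent.H10.DT.Rlb

/-!
# Artin groups of the types `B` and affine `B`

`cmBf m` is the diagram of type `B` with the path `0, …, m + 2`, the label of `0` and `1` is `4`. `cmBt m` is the affine diagram: a
further vertex `none` which is connected with `m + 1`. `cmDf m` is this diagram without the vertex `0` (type `D`).
-/

set_option autoImplicit false

namespace Pool.Agent.H10.BT

open Pool.Agent.H52.PAG Pool.Agent.H98.DT

theorem alt_four {G : Type*} [Monoid G] (x y : G) : alt x y 4 = x * y * x * y := by simp [alt, mul_assoc]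

/-- the labels of the path of type `B` -/
def lB (k l : ℕ) : ℕ := if k = l then 1 else if k + l = 1 then 4 else if k + 1 = l ∨ l + 1 = k then 3 else 2

theorem lB_symm (k l : ℕ) : lB k l = lB l k := by
  simp only [lB]
  split_ifs <;> omega

/-- the diagram of type `B` -/
def cmBf (m : ℕ) : CoxeterMatrix (Fin (m + 3)) where
  M := Matrix.of fun k l => lB k l
  isSymm := by
    ext k l
    exact lB_symm _ _
  diagonal k := by simp [lB]
  off_diagonal k l h := by
    have h1 : k.val ≠ l.val := fun h1 => h (Fin.ext h1)
    simp only [Matrix.of_apply, lB, if_neg h1]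
    split_ifs <;> omega

theorem cmBf_apply (m : ℕ) (k l : Fin (m + 3)) : cmBf m k l = lB k l := rfl

/-- the labels of the affine diagram -/
def lBt (m : ℕ) : Option (Fin (m + 3)) → Option (Fin (m + 3)) → ℕ
  | some k, some l => lB k l
  | some k, none => if k.val = m + 1 then 3 else 2
  | none, some k => if k.val = m + 1 then 3 else 2
  | none, none => 1

/-- the diagram of affine type `B` -/
def cmBt (m : ℕ) : CoxeterMatrix (Option (Fin (m + 3))) where
  M := Matrix.of (lBt m)
  isSymm := by
    ext x y
    rcases x with _ | k <;> rcases y with _ | l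
    · rfl
    · rfl
    · rfl
    · exact lB_symm _ _
  diagonal x := by
    rcases x with _ | k
    · rfl
    · simp [lBt, lB]
  off_diagonal x y h := by
    rcases x with _ | k <;> rcases y with _ | l
    · exact (h rfl).elim
    · simp only [Matrix.of_apply, lBt]
      split_ifs <;> omega
    · simp only [Matrix.of_apply, lBt]
      split_ifs <;> omega
    · have h1 : k.val ≠ l.val := fun h1 => h (congrArg some (Fin.ext h1))
      simp only [Matrix.of_apply, lBt, lB, if_neg h1]
      split_ifs <;> omega

theorem cmBt_apply (m : ℕ) (x y : Option (Fin (m + 3))) : cmBt m x y = lBt m x y := rfl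

/-- the diagram without the vertex `0` -/
def cmDf (m : ℕ) : CoxeterMatrix (Option (Fin (m + 2))) where
  M := Matrix.of (lD m)
  isSymm := by
    ext x y
    rcases x with _ | k <;> rcases y with _ | l
    · rfl
    · rfl
    · rfl
    · simp only [Matrix.transpose_apply, Matrix.of_apply, lD, pl]
      split_ifs <;> omega
  diagonal x := by
    rcases x with _ | k
    · rfl
    · simp [lD, pl]
  off_diagonal x y h := by
    rcases x with _ | k <;> rcases y with _ | l
    · exact (h rfl).elim
    · simp only [Matrix.of_apply, lD]
      split_ifs <;> omega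
    · simp only [Matrix.of_apply, lD]
      split_ifs <;> omega
    · have h1 : k.val ≠ l.val := fun h1 => h (congrArg some (Fin.ext h1))
      simp only [Matrix.of_apply, lD, pl, if_neg h1]
      split_ifs <;> omega

theorem cmDf_apply (m : ℕ) (x y : Option (Fin (m + 2))) : cmDf m x y = lD m x y := rfl

section Rel

variable {m : ℕ} {G : Type*} [Group G]

/-- the relations of type `B` -/
structure BfRel (b : Fin (m + 3) → G) : Prop where
  b4 : b 0 * b 1 * b 0 * b 1 = b 1 * b 0 * b 1 * b 0
  br : ∀ k l : Fin (m + 3), 1 ≤ k.val → k.val + 1 = l.val → b k * b l * b k = b l * b k * b l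
  co : ∀ k l : Fin (m + 3), k.val + 2 ≤ l.val → b k * b l = b l * b k

/-- the relations of affine type `B` -/
structure BtRel (b : Fin (m + 3) → G) (q : G) : Prop extends BfRel b where
  qbr : ∀ k : Fin (m + 3), k.val = m + 1 → q * b k * q = b k * q * b k
  qco : ∀ k : Fin (m + 3), k.val ≠ m + 1 → q * b k = b k * q

/-- the relations of type `D` -/
structure DfRel (b : Fin (m + 2) → G) (q : G) : Prop where
  br : ∀ k l : Fin (m + 2), k.val + 1 = l.val → b k * b l * b k = b l * b k * b l
  co : ∀ k l : Fin (m + 2), k.val + 2 ≤ l.val → b k * b l = b l * b k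
  qbr : ∀ k : Fin (m + 2), k.val = m → q * b k * q = b k * q * b k
  qco : ∀ k : Fin (m + 2), k.val ≠ m → q * b k = b k * q

theorem BfRel.alt {b : Fin (m + 3) → G} (h : BfRel b) (k l : Fin (m + 3)) :
    Pool.Agent.H52.PAG.alt (b k) (b l) (lB k l) = Pool.Agent.H52.PAG.alt (b l) (b k) (lB k l) := by
  simp only [lB]
  split_ifs with h1 h2 h3
  · rw [Fin.ext h1]
  · rw [alt_four, alt_four]
    rcases Nat.eq_zero_or_pos k.val with h4 | h4
    · have h5 : k = 0 := Fin.ext h4
      have h6 : l = 1 := Fin.ext (by
        have : ((1 : Fin (m + 3)) : ℕ) = 1 := Fin.val_one (m + 1)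
        rw [this]
        omega)
      rw [h5, h6]
      exact h.b4
    · have h5 : l = 0 := Fin.ext (by
        have : ((0 : Fin (m + 3)) : ℕ) = 0 := rfl
        rw [this]
        omega)
      have h6 : k = 1 := Fin.ext (by
        have : ((1 : Fin (m + 3)) : ℕ) = 1 := Fin.val_one (m + 1)
        rw [this]
        omega)
      rw [h5, h6]
      exact h.b4.symm
  · rw [alt_three, alt_three]
    rcases h3 with h3 | h3
    · exact h.br k l (by omega) h3
    · exact (h.br l k (by omega) h3).symm
  · rw [alt_two, alt_two]
    rcases lt_or_gt_of_ne h1 with h4 | h4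
    · exact h.co k l (by omega)
    · exact (h.co l k (by omega)).symm

/-- homomorphisms from the Artin group of type `B` -/
def liftBf {b : Fin (m + 3) → G} (h : BfRel b) : Art (cmBf m) →* G :=
  lift b fun x y _ => by
    rw [cmBf_apply]
    exact h.alt x y

@[simp]
theorem liftBf_b {b : Fin (m + 3) → G} (h : BfRel b) (k : Fin (m + 3)) : liftBf h (gen _ k) = b k := lift_gen _ _ _

/-- homomorphisms from the Artin group of affine type `B` -/
def liftBt {b : Fin (m + 3) → G} {q : G} (h : BtRel b q) : Art (cmBt m) →* G :=
  lift (oG b q) fun x y _ => by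
    rw [cmBt_apply]
    rcases x with _ | k <;> rcases y with _ | l
    · rfl
    · simp only [lBt, oG]
      split_ifs with h1
      · rw [alt_three, alt_three]
        exact h.qbr l h1
      · rw [alt_two, alt_two]
        exact h.qco l h1
    · simp only [lBt, oG]
      split_ifs with h1
      · rw [alt_three, alt_three]
        exact (h.qbr k h1).symm
      · rw [alt_two, alt_two]
        exact (h.qco k h1).symm
    · exact h.toBfRel.alt k l

@[simp]
theorem liftBt_b {b : Fin (m + 3) → G} {q : G} (h : BtRel b q) (k : Fin (m + 3)) :
    liftBt h (gen _ (some k)) = b k := lift_gen _ _ _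

@[simp]
theorem liftBt_q {b : Fin (m + 3) → G} {q : G} (h : BtRel b q) : liftBt h (gen _ none) = q := lift_gen _ _ _

/-- homomorphisms from the Artin group of type `D` -/
def liftDf {b : Fin (m + 2) → G} {q : G} (h : DfRel b q) : Art (cmDf m) →* G :=
  lift (oG b q) fun x y _ => by
    rw [cmDf_apply]
    rcases x with _ | k <;> rcases y with _ | l
    · rfl
    · simp only [lD, oG]
      split_ifs with h1
      · rw [alt_three, alt_three]
        exact h.qbr l h1
      · rw [alt_two, alt_two]
        exact h.qco l h1
    · simp only [lD, oG]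
      split_ifs with h1
      · rw [alt_three, alt_three]
        exact (h.qbr k h1).symm
      · rw [alt_two, alt_two]
        exact (h.qco k h1).symm
    · simp only [lD, oG, pl]
      split_ifs with h1 h2
      · rw [Fin.ext h1]
      · rw [alt_three, alt_three]
        rcases h2 with h2 | h2
        · exact h.br k l h2
        · exact (h.br l k h2).symm
      · rw [alt_two, alt_two]
        rcases lt_or_gt_of_ne h1 with h3 | h3
        · exact h.co k l (by omega)
        · exact (h.co l k (by omega)).symm

@[simp]
theorem liftDf_b {b : Fin (m + 2) → G} {q : G} (h : DfRel b q) (k : Fin (m + 2)) :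
    liftDf h (gen _ (some k)) = b k := lift_gen _ _ _

@[simp]
theorem liftDf_q {b : Fin (m + 2) → G} {q : G} (h : DfRel b q) : liftDf h (gen _ none) = q := lift_gen _ _ _

theorem bt_ext {f g : Art (cmBt m) →* G} (h1 : ∀ k, f (gen _ (some k)) = g (gen _ (some k)))
    (h2 : f (gen _ none) = g (gen _ none)) : f = g :=
  art_ext fun x => by
    rcases x with _ | k
    · exact h2
    · exact h1 k

end Rel

section Gen

variable (m : ℕ)

theorem one_val : ((1 : Fin (m + 3)) : ℕ) = 1 := Fin.val_one (m + 1)

theorem bfrel_gen : BfRel (fun k : Fin (m + 3) => gen (cmBf m) k) where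
  b4 := by
    have h1 := gen_rel (M := cmBf m) (i := 0) (j := 1)
    have h2 : cmBf m 0 1 = 4 := by
      rw [cmBf_apply, one_val]
      rfl
    rw [h2, alt_four, alt_four] at h1
    exact h1 (by decide)
  br k l hk h := by
    have h1 := gen_rel (M := cmBf m) (i := k) (j := l)
    have h2 : cmBf m k l = 3 := by
      rw [cmBf_apply]
      simp only [lB]
      rw [if_neg (by omega), if_neg (by omega), if_pos (Or.inl h)]
    rw [h2, alt_three, alt_three] at h1
    exact h1 (by decide)
  co k l h := by
    have h1 := gen_rel (M := cmBf m) (i := k) (j := l)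
    have h2 : cmBf m k l = 2 := by
      rw [cmBf_apply]
      simp only [lB]
      rw [if_neg (by omega), if_neg (by omega), if_neg (by omega)]
    rw [h2, alt_two, alt_two] at h1
    exact h1 (by decide)

theorem btrel_gen : BtRel (fun k : Fin (m + 3) => gen (cmBt m) (some k)) (gen (cmBt m) none) where
  b4 := by
    have h1 := gen_rel (M := cmBt m) (i := some 0) (j := some 1)
    have h2 : cmBt m (some 0) (some 1) = 4 := by
      change lB ((0 : Fin (m + 3)) : ℕ) ((1 : Fin (m + 3)) : ℕ) = 4
      rw [one_val]
      rfl
    rw [h2, alt_four, alt_four] at h1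
    exact h1 (by decide)
  br k l hk h := by
    have h1 := gen_rel (M := cmBt m) (i := some k) (j := some l)
    have h2 : cmBt m (some k) (some l) = 3 := by
      change lB k l = 3
      simp only [lB]
      rw [if_neg (by omega), if_neg (by omega), if_pos (Or.inl h)]
    rw [h2, alt_three, alt_three] at h1
    exact h1 (by decide)
  co k l h := by
    have h1 := gen_rel (M := cmBt m) (i := some k) (j := some l)
    have h2 : cmBt m (some k) (some l) = 2 := by
      change lB k l = 2
      simp only [lB]
      rw [if_neg (by omega), if_neg (by omega), if_neg (by omega)]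
    rw [h2, alt_two, alt_two] at h1
    exact h1 (by decide)
  qbr k h := by
    have h1 := gen_rel (M := cmBt m) (i := none) (j := some k)
    have h2 : cmBt m none (some k) = 3 := if_pos h
    rw [h2, alt_three, alt_three] at h1
    exact h1 (by decide)
  qco k h := by
    have h1 := gen_rel (M := cmBt m) (i := none) (j := some k)
    have h2 : cmBt m none (some k) = 2 := if_neg h
    rw [h2, alt_two, alt_two] at h1
    exact h1 (by decide)

theorem dfrel_gen : DfRel (fun k : Fin (m + 2) => gen (cmDf m) (some k)) (gen (cmDf m) none) where
  br k l h := by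
    have h1 := gen_rel (M := cmDf m) (i := some k) (j := some l)
    have h2 : cmDf m (some k) (some l) = 3 := by
      change pl k l = 3
      simp only [pl]
      rw [if_neg (by omega), if_pos (Or.inl h)]
    rw [h2, alt_three, alt_three] at h1
    exact h1 (by decide)
  co k l h := by
    have h1 := gen_rel (M := cmDf m) (i := some k) (j := some l)
    have h2 : cmDf m (some k) (some l) = 2 := by
      change pl k l = 2
      simp only [pl]
      rw [if_neg (by omega), if_neg (by omega)]
    rw [h2, alt_two, alt_two] at h1
    exact h1 (by decide)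
  qbr k h := by
    have h1 := gen_rel (M := cmDf m) (i := none) (j := some k)
    have h2 : cmDf m none (some k) = 3 := if_pos h
    rw [h2, alt_three, alt_three] at h1
    exact h1 (by decide)
  qco k h := by
    have h1 := gen_rel (M := cmDf m) (i := none) (j := some k)
    have h2 : cmDf m none (some k) = 2 := if_neg h
    rw [h2, alt_two, alt_two] at h1
    exact h1 (by decide)

end Gen

end Pool.Agent.H10.BT
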