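import Pool.Agent.H98.DT.Bt
import Pool.Agent.H10.BT.Ax

/-!
# The action of the Artin group of type `B` on `Phi`

`tau i` is the automorphism `a ↦ (a u_i) a (a u_i)⁻¹`, `u_i ↦ a u_i a⁻¹` of `Phi I`.
-/

set_option autoImplicit false

namespace Pool.Agent.H10.BT

open Pool.Agent.H52.PAG Pool.Agent.H98.DT

section Abs

variable {H : Type*} [Group H]

/-- the substitution of `tau` -/
def sT (p : H × H × H) : H × H × H := (p.1 * p.2.1 * p.1 * (p.1 * p.2.1)⁻¹, p.1 * p.2.1 * p.1⁻¹, p.2.2)

/-- the substitution of `bet` -/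
def sB (p : H × H × H) : H × H × H := (p.1, p.2.1 * p.2.2 * p.2.1, p.2.1)

theorem sTB (a u v : H) (hu : u * u = 1) (hv : v * v = 1) :
    sB (sT (sB (sT (a, u, v)))) = sT (sB (sT (sB (a, u, v)))) := by
  have hui : u⁻¹ = u := inv_eq_of_mul_eq_one_left hu
  have hvi : v⁻¹ = v := inv_eq_of_mul_eq_one_left hv
  have hu2 : ∀ x, u * (u * x) = x := fun x => by rw [← mul_assoc, hu, one_mul]
  have hv2 : ∀ x, v * (v * x) = x := fun x => by rw [← mul_assoc, hv, one_mul]
  simp only [sT, sB, mul_inv_rev, inv_inv, hui, hvi, mul_assoc, hu2, hv2, inv_mul_cancel_left,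
    mul_inv_cancel_left]

theorem tt1 (a u : H) (hu : u * u = 1) : a * u * a⁻¹ * (a * u * a * (a * u)⁻¹) * (a * u * a⁻¹) = a := by
  calc a * u * a⁻¹ * (a * u * a * (a * u)⁻¹) * (a * u * a⁻¹) = a * (u * u) * a * a⁻¹ := by group
    _ = a := by rw [hu]; group

theorem tt2 (a u : H) (hu : u * u = 1) : a * u * a⁻¹ * (a * u * a * (a * u)⁻¹)⁻¹ * (a * u * a⁻¹) *
    (a * u * a⁻¹ * (a * u * a * (a * u)⁻¹)⁻¹)⁻¹ = u := by
  calc a * u * a⁻¹ * (a * u * a * (a * u)⁻¹)⁻¹ * (a * u * a⁻¹) * (a * u * a⁻¹ * (a * u * a * (a * u)⁻¹)⁻¹)⁻¹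
      = a * (u * u) * a⁻¹ * u⁻¹ * u * (a * (u * u) * a⁻¹ * u⁻¹)⁻¹ := by group
    _ = u := by rw [hu]; group

theorem tt3 (a u : H) (hu : u * u = 1) : u * a * u * (u * a⁻¹ * u * (u * a⁻¹)⁻¹) * (u * a * u) *
    (u * a * u * (u * a⁻¹ * u * (u * a⁻¹)⁻¹))⁻¹ = a := by
  have hui : u⁻¹ = u := inv_eq_of_mul_eq_one_left hu
  have hu2 : ∀ x, u * (u * x) = x := fun x => by rw [← mul_assoc, hu, one_mul]
  simp only [mul_inv_rev, inv_inv, hui, mul_assoc, hu2, mul_inv_cancel_left, mul_inv_cancel, mul_one]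

theorem tt4 (a u : H) (hu : u * u = 1) : u * a * u * (u * a⁻¹ * u * (u * a⁻¹)⁻¹) * (u * a * u)⁻¹ = u := by
  have hui : u⁻¹ = u := inv_eq_of_mul_eq_one_left hu
  have hu2 : ∀ x, u * (u * x) = x := fun x => by rw [← mul_assoc, hu, one_mul]
  simp only [mul_inv_rev, inv_inv, hui, mul_assoc, hu2, hu, mul_inv_cancel_left, mul_inv_cancel, mul_one]

/-- the substitutions of two neighbours -/
def s1 (p : H × H × H) : H × H × H := (p.1 * p.2.1 * p.1, p.1, p.2.2)

/-- the substitutions of two neighbours -/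
def s2 (p : H × H × H) : H × H × H := (p.1, p.2.1 * p.2.2 * p.2.1, p.2.1)

theorem s12 (u v w : H) (hu : u * u = 1) :
    s1 (s2 (s1 (u, v, w))) = s2 (s1 (s2 (u, v, w))) := by
  have hu2 : ∀ x, u * (u * x) = x := fun x => by rw [← mul_assoc, hu, one_mul]
  simp only [s1, s2, mul_assoc, hu2]

end Abs

section Gen

variable {I : Type} [DecidableEq I]

/-- the automorphism -/
def tau (i : I) : Phi I →* Phi I :=
  liftP (pa * pu i * pa * (pa * pu i)⁻¹) (fun l => if l = i then pa * pu i * pa⁻¹ else pu l) (fun l => by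
    by_cases h : l = i
    · rw [if_pos h]
      calc pa * pu i * pa⁻¹ * (pa * pu i * pa⁻¹) = pa * (pu i * pu i) * pa⁻¹ := by group
        _ = 1 := by rw [pu_mul_pu]; group
    · rw [if_neg h, pu_mul_pu])

theorem tau_pa (i : I) : tau i pa = pa * pu i * pa * (pa * pu i)⁻¹ := liftP_pa _ _ _

theorem tau_pu (i : I) : tau i (pu i) = pa * pu i * pa⁻¹ := by
  rw [tau, liftP_pu, if_pos rfl]

theorem tau_pu_ne {i l : I} (h : l ≠ i) : tau i (pu l) = pu l := by
  rw [tau, liftP_pu, if_neg h]

/-- the inverse automorphism -/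
def tau' (i : I) : Phi I →* Phi I :=
  liftP (pu i * pa * pu i) (fun l => if l = i then pu i * pa⁻¹ * pu i * (pu i * pa⁻¹)⁻¹ else pu l) (fun l => by
    by_cases h : l = i
    · rw [if_pos h]
      calc pu i * pa⁻¹ * pu i * (pu i * pa⁻¹)⁻¹ * (pu i * pa⁻¹ * pu i * (pu i * pa⁻¹)⁻¹)
          = pu i * pa⁻¹ * (pu i * pu i) * (pu i * pa⁻¹)⁻¹ := by group
        _ = 1 := by rw [pu_mul_pu]; group
    · rw [if_neg h, pu_mul_pu])

theorem tau'_pa (i : I) : tau' i pa = pu i * pa * pu i := liftP_pa _ _ _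

theorem tau'_pu (i : I) : tau' i (pu i) = pu i * pa⁻¹ * pu i * (pu i * pa⁻¹)⁻¹ := by
  rw [tau', liftP_pu, if_pos rfl]

theorem tau'_pu_ne {i l : I} (h : l ≠ i) : tau' i (pu l) = pu l := by
  rw [tau', liftP_pu, if_neg h]

omit [DecidableEq I] in
theorem pu_pu (i : I) (x : Phi I) : pu i * (pu i * x) = x := by rw [← mul_assoc, pu_mul_pu, one_mul]

theorem tau_tau' (i : I) : (tau i).comp (tau' i) = MonoidHom.id _ := by
  refine phi_ext ?_ fun l => ?_
  · rw [MonoidHom.comp_apply, tau'_pa, map_mul, map_mul, tau_pa, tau_pu, MonoidHom.id_apply]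
    exact tt1 _ _ (pu_mul_pu i)
  · by_cases h : l = i
    · subst h
      rw [MonoidHom.comp_apply, tau'_pu, map_mul, map_mul, map_mul, map_inv, map_inv, map_mul, map_inv, tau_pa, tau_pu,
        MonoidHom.id_apply]
      exact tt2 _ _ (pu_mul_pu l)
    · rw [MonoidHom.comp_apply, tau'_pu_ne h, tau_pu_ne h, MonoidHom.id_apply]

theorem tau'_tau (i : I) : (tau' i).comp (tau i) = MonoidHom.id _ := by
  refine phi_ext ?_ fun l => ?_
  · rw [MonoidHom.comp_apply, tau_pa, map_mul, map_mul, map_mul, map_inv, map_mul, tau'_pa, tau'_pu,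
      MonoidHom.id_apply]
    exact tt3 _ _ (pu_mul_pu i)
  · by_cases h : l = i
    · subst h
      rw [MonoidHom.comp_apply, tau_pu, map_mul, map_mul, map_inv, tau'_pa, tau'_pu, MonoidHom.id_apply]
      exact tt4 _ _ (pu_mul_pu l)
    · rw [MonoidHom.comp_apply, tau_pu_ne h, tau'_pu_ne h, MonoidHom.id_apply]

/-- as an element of the automorphism group -/
def tauE (i : I) : MulAut (Phi I) := MonoidHom.toMulEquiv (tau i) (tau' i) (tau'_tau i) (tau_tau' i)

theorem tauE_apply (i : I) (x : Phi I) : tauE i x = tau i x := rfl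

/-- the braid automorphism -/
def betE (i j : I) (h : i ≠ j) : MulAut (Phi I) :=
  MonoidHom.toMulEquiv (bet i j) (bet j i) (MonoidHom.ext fun x => bet_bet h.symm x)
    (MonoidHom.ext fun x => bet_bet h x)

theorem betE_apply (i j : I) (h : i ≠ j) (x : Phi I) : betE i j h x = bet i j x := rfl

theorem bet_i (i j : I) : bet i j (pu i) = pu i * pu j * pu i := by rw [bet_pu, bsG_left]

theorem bet_j {i j : I} (h : i ≠ j) : bet i j (pu j) = pu i := by rw [bet_pu, bsG_right _ h]

theorem bet_l {i j l : I} (h1 : l ≠ i) (h2 : l ≠ j) : bet i j (pu l) = pu l := by rw [bet_pu, bsG_of_ne _ h1 h2]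

omit [DecidableEq I] in
theorem aut_ext {f g : MulAut (Phi I)} (h1 : f pa = g pa) (h2 : ∀ l, f (pu l) = g (pu l)) : f = g := by
  have h3 : f.toMonoidHom = g.toMonoidHom := phi_ext h1 h2
  ext x : 1
  exact DFunLike.congr_fun h3 x

/-- three values of a homomorphism -/
def V3 (i j : I) (f : Phi I →* Phi I) : Phi I × Phi I × Phi I := (f pa, f (pu i), f (pu j))

theorem V3_tau {i j : I} (h : i ≠ j) (f : Phi I →* Phi I) : V3 i j (f.comp (tau i)) = sT (V3 i j f) := by
  simp only [V3, sT, MonoidHom.comp_apply, tau_pa, tau_pu, tau_pu_ne h.symm, map_mul, map_inv]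

theorem V3_bet {i j : I} (h : i ≠ j) (f : Phi I →* Phi I) : V3 i j (f.comp (bet i j)) = sB (V3 i j f) := by
  simp only [V3, sB, MonoidHom.comp_apply, bet_pa, bet_i, bet_j h, map_mul]

/-- three values of a homomorphism -/
def W3 (i j k : I) (f : Phi I →* Phi I) : Phi I × Phi I × Phi I := (f (pu i), f (pu j), f (pu k))

theorem W3_1 {i j k : I} (h : i ≠ j) (h1 : k ≠ i) (h2 : k ≠ j) (f : Phi I →* Phi I) :
    W3 i j k (f.comp (bet i j)) = s1 (W3 i j k f) := by
  simp only [W3, s1, MonoidHom.comp_apply, bet_i, bet_j h, bet_l h1 h2, map_mul]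

theorem W3_2 {i j k : I} (h : j ≠ k) (h1 : i ≠ j) (h2 : i ≠ k) (f : Phi I →* Phi I) :
    W3 i j k (f.comp (bet j k)) = s2 (W3 i j k f) := by
  simp only [W3, s2, MonoidHom.comp_apply, bet_i, bet_j h, bet_l h1 h2, map_mul]

omit [DecidableEq I] in
theorem mul3 (f g h : MulAut (Phi I)) (x : Phi I) : (f * g * h) x = f (g (h x)) := rfl

omit [DecidableEq I] in
theorem mul4 (f g h k : MulAut (Phi I)) (x : Phi I) : (f * g * h * k) x = f (g (h (k x))) := rfl

/-- the relation with label four -/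
theorem tau_bet {i j : I} (h : i ≠ j) :
    tauE i * betE i j h * tauE i * betE i j h = betE i j h * tauE i * betE i j h * tauE i := by
  have h1 : V3 i j ((((((MonoidHom.id (Phi I)).comp (tau i)).comp (bet i j)).comp (tau i)).comp (bet i j))) =
      V3 i j ((((((MonoidHom.id (Phi I)).comp (bet i j)).comp (tau i)).comp (bet i j)).comp (tau i))) := by
    rw [V3_bet h, V3_tau h, V3_bet h, V3_tau h, V3_tau h, V3_bet h, V3_tau h, V3_bet h]
    exact sTB _ _ _ (pu_mul_pu i) (pu_mul_pu j)
  simp only [V3, MonoidHom.comp_apply, MonoidHom.id_apply, Prod.mk.injEq] at h1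
  refine aut_ext ?_ fun l => ?_
  · rw [mul4, mul4]
    simp only [tauE_apply, betE_apply]
    exact h1.1
  · rw [mul4, mul4]
    simp only [tauE_apply, betE_apply]
    by_cases h2 : l = i
    · subst h2
      exact h1.2.1
    · by_cases h3 : l = j
      · subst h3
        exact h1.2.2
      · simp only [bet_l h2 h3, tau_pu_ne h2]

theorem tau_comm {i j k : I} (h : j ≠ k) (hij : i ≠ j) (hik : i ≠ k) :
    tauE i * betE j k h = betE j k h * tauE i := by
  refine aut_ext ?_ fun l => ?_
  · rw [MulAut.mul_apply, MulAut.mul_apply, tauE_apply, tauE_apply, betE_apply, betE_apply, bet_pa, tau_pa,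
      map_mul, map_mul, map_mul, map_inv, map_mul, bet_pa, bet_l hij hik]
  · by_cases h1 : l = i
    · subst h1
      rw [MulAut.mul_apply, MulAut.mul_apply, tauE_apply, tauE_apply, betE_apply, betE_apply, bet_l hij hik, tau_pu,
        map_mul, map_mul, map_inv, bet_pa, bet_l hij hik]
    · by_cases h2 : l = j
      · subst h2
        rw [MulAut.mul_apply, MulAut.mul_apply, tauE_apply, tauE_apply, betE_apply, betE_apply, tau_pu_ne h1, bet_i,
          map_mul, map_mul, tau_pu_ne h1, tau_pu_ne hik.symm]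
      · by_cases h3 : l = k
        · subst h3
          rw [MulAut.mul_apply, MulAut.mul_apply, tauE_apply, tauE_apply, betE_apply, betE_apply, tau_pu_ne h1,
            bet_j h, tau_pu_ne hij.symm]
        · rw [MulAut.mul_apply, MulAut.mul_apply, tauE_apply, tauE_apply, betE_apply, betE_apply, tau_pu_ne h1,
            bet_l h2 h3, tau_pu_ne h1]

theorem bet_braid {i j k : I} (hij : i ≠ j) (hjk : j ≠ k) (hik : i ≠ k) :
    betE i j hij * betE j k hjk * betE i j hij = betE j k hjk * betE i j hij * betE j k hjk := by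
  have h1 : W3 i j k (((((MonoidHom.id (Phi I)).comp (bet i j)).comp (bet j k)).comp (bet i j))) =
      W3 i j k (((((MonoidHom.id (Phi I)).comp (bet j k)).comp (bet i j)).comp (bet j k))) := by
    rw [W3_1 hij hik.symm hjk.symm, W3_2 hjk hij hik, W3_1 hij hik.symm hjk.symm, W3_2 hjk hij hik,
      W3_1 hij hik.symm hjk.symm, W3_2 hjk hij hik]
    exact s12 _ _ _ (pu_mul_pu i)
  simp only [W3, MonoidHom.comp_apply, MonoidHom.id_apply, Prod.mk.injEq] at h1
  refine aut_ext ?_ fun l => ?_
  · rw [mul3, mul3]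
    simp only [betE_apply, bet_pa]
  · rw [mul3, mul3]
    simp only [betE_apply]
    by_cases h2 : l = i
    · subst h2
      exact h1.1
    · by_cases h3 : l = j
      · subst h3
        exact h1.2.1
      · by_cases h4 : l = k
        · subst h4
          exact h1.2.2
        · rw [bet_l h2 h3, bet_l h3 h4, bet_l h2 h3, bet_l h3 h4]

theorem bet_comm {i j k l : I} (hij : i ≠ j) (hkl : k ≠ l) (hik : i ≠ k) (hil : i ≠ l) (hjk : j ≠ k) (hjl : j ≠ l) :
    betE i j hij * betE k l hkl = betE k l hkl * betE i j hij := by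
  refine aut_ext ?_ fun p => ?_
  · rw [MulAut.mul_apply, MulAut.mul_apply, betE_apply, betE_apply, betE_apply, betE_apply, bet_pa, bet_pa, bet_pa]
  · rw [MulAut.mul_apply, MulAut.mul_apply, betE_apply, betE_apply, betE_apply, betE_apply]
    by_cases h1 : p = i
    · subst h1
      rw [bet_i, bet_l hik hil, bet_i, map_mul, map_mul, bet_l hik hil, bet_l hjk hjl]
    · by_cases h2 : p = j
      · subst h2
        rw [bet_j hij, bet_l hjk hjl, bet_j hij, bet_l hik hil]
      · by_cases h3 : p = k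
        · subst h3
          rw [bet_l h1 h2, bet_i, map_mul, map_mul, bet_l h1 h2, bet_l hil.symm hjl.symm]
        · by_cases h4 : p = l
          · subst h4
            rw [bet_l h1 h2, bet_j hkl, bet_l hik.symm hjk.symm]
          · rw [bet_l h1 h2, bet_l h3 h4, bet_l h1 h2]

end Gen

section Act

variable (m : ℕ)

/-- the vertex before `k` -/
def pv {m : ℕ} (k : Fin (m + 3)) : Fin (m + 3) := ⟨k.val - 1, by omega⟩

theorem pv_ne {m : ℕ} {k : Fin (m + 3)} (h : k.val ≠ 0) : pv k ≠ k := by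
  intro h1
  have := congrArg Fin.val h1
  simp only [pv] at this
  omega

/-- the automorphisms of the generators -/
def ab (k : Fin (m + 3)) : MulAut (Phi (Fin (m + 3))) :=
  if h : k.val = 0 then tauE k else betE (pv k) k (pv_ne h)

theorem ab_rel : BfRel (ab m) where
  b4 := by
    have h0 : ab m 0 = tauE 0 := dif_pos rfl
    have h1 : ((1 : Fin (m + 3)) : ℕ) ≠ 0 := by rw [one_val]; decide
    have h2 : pv (1 : Fin (m + 3)) = 0 := Fin.ext (by simp only [pv, one_val]; rfl)
    have h3 : ab m 1 = betE 0 1 (by rw [← h2]; exact pv_ne h1) := by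
      rw [ab, dif_neg h1]
      congr 1
    rw [h0, h3]
    exact tau_bet _
  br k l hk h := by
    have hk0 : k.val ≠ 0 := by omega
    have hl0 : l.val ≠ 0 := by omega
    have h2 : pv l = k := Fin.ext (by simp only [pv]; omega)
    have h3 : ab m l = betE k l (by rw [← h2]; exact pv_ne hl0) := by
      rw [ab, dif_neg hl0]
      congr 1
    rw [h3, ab, dif_neg hk0]
    apply bet_braid
    intro h4
    have := congrArg Fin.val h4
    simp only [pv] at this
    omega
  co k l h := by
    have hl0 : l.val ≠ 0 := by omega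
    have hlv : (pv l).val = l.val - 1 := rfl
    have hkv : (pv k).val = k.val - 1 := rfl
    by_cases hk0 : k.val = 0
    · rw [ab, dif_pos hk0, ab, dif_neg hl0]
      apply tau_comm
      · intro h4
        have := congrArg Fin.val h4
        omega
      · intro h4
        have := congrArg Fin.val h4
        omega
    · rw [ab, dif_neg hk0, ab, dif_neg hl0]
      apply bet_comm
      · intro h4
        have := congrArg Fin.val h4
        omega
      · intro h4
        have := congrArg Fin.val h4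
        omega
      · intro h4
        have := congrArg Fin.val h4
        omega
      · intro h4
        have := congrArg Fin.val h4
        omega

/-- the action -/
def rhoB : Art (cmBf m) →* MulAut (Phi (Fin (m + 3))) := liftBf (ab_rel m)

theorem rhoB_gen (k : Fin (m + 3)) : rhoB m (gen _ k) = ab m k := liftBf_b _ _

end Act

end Pool.Agent.H10.BT
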