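import Pool.Agent.H10.BT.Idn
import Pool.Agent.H10.DT.Alp

/-!
# The element `β`

`S n` is an involution, `S 0, …, S n` satisfy the Artin relations of type `C~_n`.
-/

set_option autoImplicit false

namespace Pool.Agent.H10.BT

open Pool.Agent.H10.DT

variable {G : Type*} [Group G]

/-- the relations of type `C~_n`, the last generator is an involution -/
structure BB (S : ℕ → G) (n : ℕ) : Prop where
  two : 2 ≤ n
  sqn : S n * S n = 1
  b0 : S 0 * S 1 * S 0 * S 1 = S 1 * S 0 * S 1 * S 0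
  bn : S n * S (n - 1) * S n * S (n - 1) = S (n - 1) * S n * S (n - 1) * S n
  braid : ∀ k, 1 ≤ k → k + 1 < n → S k * S (k + 1) * S k = S (k + 1) * S k * S (k + 1)
  comm : ∀ j k, j + 2 ≤ k → k ≤ n → S j * S k = S k * S j

/-- the element `β` -/
def bel (S : ℕ → G) (n : ℕ) : G := (S 0 * DD S (n - 1)) ^ n * PP (mir S n) n

namespace BB

variable {S : ℕ → G} {n : ℕ} (h : BB S n)
include h

theorem left : HB S n where
  b0 := h.b0
  braid := h.braid
  comm j k hjk hk := h.comm j k hjk (by omega)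

theorem right : HT (mir S n) n where
  sq := by
    change (S n)⁻¹ * (S n)⁻¹ = 1
    rw [← mul_inv_rev, h.sqn, inv_one]
  b0 := by
    change (S n)⁻¹ * (S (n - 1))⁻¹ * (S n)⁻¹ * (S (n - 1))⁻¹ = (S (n - 1))⁻¹ * (S n)⁻¹ * (S (n - 1))⁻¹ * (S n)⁻¹
    have h1 : (S n * S (n - 1) * S n * S (n - 1))⁻¹ = (S (n - 1) * S n * S (n - 1) * S n)⁻¹ := by rw [h.bn]
    calc (S n)⁻¹ * (S (n - 1))⁻¹ * (S n)⁻¹ * (S (n - 1))⁻¹ = (S (n - 1) * S n * S (n - 1) * S n)⁻¹ := by group
      _ = (S n * S (n - 1) * S n * S (n - 1))⁻¹ := h1.symm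
      _ = _ := by group
  braid k hk hkn := by
    have h1 := h.braid (n - (k + 1)) (by omega) (by omega)
    have e1 : n - (k + 1) + 1 = n - k := by omega
    rw [e1] at h1
    change (S (n - k))⁻¹ * (S (n - (k + 1)))⁻¹ * (S (n - k))⁻¹ =
      (S (n - (k + 1)))⁻¹ * (S (n - k))⁻¹ * (S (n - (k + 1)))⁻¹
    have h2 : (S (n - (k + 1)) * S (n - k) * S (n - (k + 1)))⁻¹ = (S (n - k) * S (n - (k + 1)) * S (n - k))⁻¹ := by
      rw [h1]
    calc (S (n - k))⁻¹ * (S (n - (k + 1)))⁻¹ * (S (n - k))⁻¹ = (S (n - k) * S (n - (k + 1)) * S (n - k))⁻¹ := by group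
      _ = (S (n - (k + 1)) * S (n - k) * S (n - (k + 1)))⁻¹ := h2.symm
      _ = _ := by group
  comm j k hjk hk := by
    have h1 := h.comm (n - k) (n - j) (by omega) (by omega)
    have h2 := congrArg (fun x => x⁻¹) h1
    simp only [mul_inv_rev] at h2
    exact h2

theorem U_last : UU S n n = S n := by
  have : UU S n n = (S n)⁻¹ := by
    rw [UU, Nat.sub_self]
    rfl
  rw [this]
  exact inv_eq_of_mul_eq_one_left h.sqn

theorem U_sq (k : ℕ) : UU S n k * UU S n k = 1 := h.right.tsq _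

omit h in
/-- `S k UU (k + 1) (S k)⁻¹ = UU k` -/
theorem U_succ (k : ℕ) (hk : k < n) : S k * UU S n (k + 1) * (S k)⁻¹ = UU S n k := by
  have e1 : n - k = n - (k + 1) + 1 := by omega
  have e2 : n - (n - (k + 1) + 1) = k := by omega
  rw [UU, UU, e1, TT_succ, mir, e2]
  group

/-- `S k UU k (S k)⁻¹ = UU k UU (k + 1) UU k` -/
theorem U_self (k : ℕ) (hk : 1 ≤ k) (hkn : k < n) :
    S k * UU S n k * (S k)⁻¹ = UU S n k * UU S n (k + 1) * UU S n k := by
  have h1 := h.right.s_t (n - (k + 1)) (by omega)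
  have e1 : n - (k + 1) + 1 = n - k := by omega
  have e2 : n - (n - k) = k := by omega
  rw [e1, mir, e2, inv_inv] at h1
  change (S k)⁻¹ * UU S n (k + 1) * S k = UU S n (k + 1) * UU S n k * UU S n (k + 1) at h1
  have h2 := U_succ (S := S) k hkn
  have h3 := h.U_sq k
  have h4 := h.U_sq (k + 1)
  generalize UU S n k = u at h1 h2 h3 ⊢
  generalize UU S n (k + 1) = v at h1 h2 h4 ⊢
  have h5 : v = (S k * v * (S k)⁻¹) * (S k * u * (S k)⁻¹) * (S k * v * (S k)⁻¹) := by
    calc v = S k * ((S k)⁻¹ * v * S k) * (S k)⁻¹ := by group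
      _ = _ := by rw [h1]; group
  rw [h2] at h5
  rw [h5]
  calc S k * u * (S k)⁻¹ = (u * u) * (S k * u * (S k)⁻¹) * (u * u) := by rw [h3]; group
    _ = _ := by group

/-- `S k` commutes with the other `UU j` -/
theorem U_comm (k j : ℕ) (hk : 1 ≤ k) (hkn : k < n) (hj : 1 ≤ j) (hjn : j ≤ n) (h1 : j ≠ k) (h2 : j ≠ k + 1) :
    Commute (S k) (UU S n j) := by
  have key : Commute (mir S n (n - k)) (TT (mir S n) (n - j)) := by
    rcases Nat.lt_or_ge k j with h3 | h3
    · exact h.right.t1 (n - j) (n - k) (by omega) (by omega)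
    · exact h.right.t2 (n - j) (n - k) (by omega) (by omega) (by omega)
  have e1 : mir S n (n - k) = (S k)⁻¹ := by
    rw [mir, show n - (n - k) = k by omega]
  rw [e1] at key
  have := key.inv_left
  rwa [inv_inv] at this

/-- `S 0` commutes with `UU j`, `2 ≤ j` -/
theorem U0_comm (j : ℕ) (hj : 2 ≤ j) (hjn : j ≤ n) : Commute (S 0) (UU S n j) := by
  have key : ∀ m, m + 2 ≤ n → Commute (S 0) (TT (mir S n) m) := by
    intro m
    induction m with
    | zero =>
      intro hm
      have h1 : Commute (S 0) (S n) := h.comm 0 n hm le_rfl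
      exact h1.inv_right
    | succ m ih =>
      intro hm
      have h1 : Commute (S 0) (mir S n (m + 1)) :=
        (show Commute (S 0) (S (n - (m + 1))) from h.comm 0 (n - (m + 1)) (by omega) (by omega)).inv_right
      exact (h1.inv_right.mul_right (ih (by omega))).mul_right h1
  exact key (n - j) (by omega)

theorem P'_eq : ∃ W : G, PP (mir S n) n = W * UU S n 1 ∧ Commute (S 0) W := by
  obtain ⟨m, hm⟩ : ∃ m, n = m + 1 := ⟨n - 1, by have := h.two; omega⟩
  refine ⟨PP (mir S n) m, ?_, ?_⟩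
  · have : PP (mir S n) (m + 1) = PP (mir S n) m * UU S n 1 := by
      rw [PP_succ, UU]
      have e1 : n - 1 = m := by omega
      rw [e1]
    rw [← this]
    congr 1
  · have key : ∀ j, j ≤ m → Commute (S 0) (PP (mir S n) j) := by
      intro j
      induction j with
      | zero => intro _; exact Commute.one_right _
      | succ j ih =>
        intro hj
        have h1 := h.U0_comm (n - j) (by omega) (by omega)
        rw [UU, show n - (n - j) = j by omega] at h1
        exact (ih (by omega)).mul_right h1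
    exact key m le_rfl

/-- `S k` commutes with `β` -/
theorem bel_comm (k : ℕ) (hk : 1 ≤ k) (hkn : k < n) : Commute (S k) (bel S n) := by
  have hP' : Commute (S k) (PP (mir S n) n) := by
    obtain ⟨p, hp⟩ : ∃ p, n - k = p + 1 := ⟨n - k - 1, by omega⟩
    have h1 := h.right.PP_comm p n (by omega) le_rfl
    rw [← hp, mir, show n - (n - k) = k by omega] at h1
    have := h1.inv_left
    rwa [inv_inv] at this
  exact (h.left.omk k hk hkn).symm.mul_right hP'

/-- `UU 1 = δ S n δ⁻¹` -/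
theorem U_one : UU S n 1 = DD S (n - 1) * S n * (DD S (n - 1))⁻¹ := by
  have key : ∀ m, m < n → DD S m * UU S n (m + 1) * (DD S m)⁻¹ = UU S n 1 := by
    intro m
    induction m with
    | zero => intro _; rw [DD]; group
    | succ m ih =>
      intro hm
      have h1 := U_succ (S := S) (m + 1) hm
      have h2 := ih (by omega)
      rw [DD_succ, ← h2, ← h1]
      group
  have hn := h.two
  have h1 := key (n - 1) (by omega)
  rw [show n - 1 + 1 = n by omega, h.U_last] at h1
  exact h1.symm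

/-- `S n` commutes with the conjugates `TT j`, `j ≤ n - 2` -/
theorem TT_Sn (j : ℕ) (hj : j + 2 ≤ n) : Commute (S n) (TT S j) := by
  induction j with
  | zero => exact (h.comm 0 n hj le_rfl).symm
  | succ j ih =>
    have h1 : Commute (S n) (S (j + 1)) := (h.comm (j + 1) n hj le_rfl).symm
    exact (h1.inv_right.mul_right (ih (by omega))).mul_right h1

/-- the main identity -/
theorem S0_U1 : S 0 * UU S n 1 * (S 0)⁻¹ = bel S n * UU S n 1 * (bel S n)⁻¹ := by
  have hn := h.two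
  -- the left half
  have hQ : ∀ m, m + 1 ≤ n → Commute (S n) (QQ S m) := by
    intro m
    induction m with
    | zero => intro _; exact Commute.one_right _
    | succ m ih =>
      intro hm
      exact (h.TT_Sn m (by omega)).mul_right (ih (by omega))
  have hU := h.U_one
  have e1 := h.left.om_eq n le_rfl
  have e2 := h.left.om_eq (n - 1) (by omega)
  -- the right half
  have hD : DD (mir S n) (n - 1) = (DD S (n - 1))⁻¹ := CT.DD_mir (n - 1) (by omega)
  have hc : ∀ j, 1 ≤ j → j ≤ n → Commute ((PP (mir S n) n)⁻¹ * ((DD S (n - 1))⁻¹) ^ n) (S j) := by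
    intro j hj hjn
    rw [← hD]
    rcases Nat.lt_or_ge j n with h1 | h1
    · have h2 := h.right.cck (n - j) (by omega) (by omega)
      rw [mir, show n - (n - j) = j by omega] at h2
      have := h2.inv_right
      rwa [inv_inv] at this
    · have hj' : j = n := by omega
      subst hj'
      have h2 := h.right.cc0 (by omega)
      have h3 : mir S j 0 = (S j)⁻¹ := rfl
      rw [h3] at h2
      have := h2.inv_right
      rwa [inv_inv] at this
  have hDc : ∀ m, m < n → Commute ((PP (mir S n) n)⁻¹ * ((DD S (n - 1))⁻¹) ^ n) (DD S m) := by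
    intro m
    induction m with
    | zero => intro _; exact Commute.one_right _
    | succ m ih =>
      intro hm
      exact (ih (by omega)).mul_right (hc (m + 1) (by omega) (by omega))
  have hcU : Commute ((PP (mir S n) n)⁻¹ * ((DD S (n - 1))⁻¹) ^ n) (UU S n 1) := by
    rw [h.U_one]
    exact ((hDc _ (by omega)).mul_right (hc n (by omega) le_rfl)).mul_right (hDc _ (by omega)).inv_right
  -- `β U β⁻¹ = Q U Q⁻¹`
  have e3 : bel S n = QQ S n * ((PP (mir S n) n)⁻¹ * ((DD S (n - 1))⁻¹) ^ n)⁻¹ := by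
    rw [bel, e1, inv_pow]
    group
  have e4 : bel S n * UU S n 1 * (bel S n)⁻¹ = QQ S n * UU S n 1 * (QQ S n)⁻¹ := by
    rw [e3]
    generalize (PP (mir S n) n)⁻¹ * ((DD S (n - 1))⁻¹) ^ n = c at hcU ⊢
    have h1 : c⁻¹ * UU S n 1 * c = UU S n 1 := by rw [mul_assoc, ← hcU.eq]; group
    calc QQ S n * c⁻¹ * UU S n 1 * (QQ S n * c⁻¹)⁻¹ = QQ S n * (c⁻¹ * UU S n 1 * c) * (QQ S n)⁻¹ := by group
      _ = _ := by rw [h1]
  rw [e4]
  -- `Q_n = S 0 δ Q_(n-1) δ⁻¹`
  have e5 : QQ S n = S 0 * DD S (n - 1) * QQ S (n - 1) * (DD S (n - 1))⁻¹ := by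
    have h1 : QQ S n = (S 0 * DD S (n - 1)) ^ n * ((DD S (n - 1)) ^ n)⁻¹ := by rw [e1]; group
    have h2 : QQ S (n - 1) = (S 0 * DD S (n - 1)) ^ (n - 1) * ((DD S (n - 1)) ^ (n - 1))⁻¹ := by rw [e2]; group
    obtain ⟨p, hp⟩ : ∃ p, n = p + 1 := ⟨n - 1, by omega⟩
    rw [h1, h2]
    have h3 : (S 0 * DD S (n - 1)) ^ n = (S 0 * DD S (n - 1)) * (S 0 * DD S (n - 1)) ^ (n - 1) := by
      rw [← pow_succ', show n - 1 + 1 = n by omega]
    have h4 : (DD S (n - 1)) ^ n = (DD S (n - 1)) * (DD S (n - 1)) ^ (n - 1) := by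
      rw [← pow_succ', show n - 1 + 1 = n by omega]
    rw [h3, h4, mul_inv_rev]
    simp only [mul_assoc]
  have h2 := hQ (n - 1) (by omega)
  rw [e5, hU]
  generalize DD S (n - 1) = D
  generalize QQ S (n - 1) = Q at h2 ⊢
  calc S 0 * (D * S n * D⁻¹) * (S 0)⁻¹ = S 0 * D * (S n * Q) * Q⁻¹ * D⁻¹ * (S 0)⁻¹ := by group
    _ = S 0 * D * (Q * S n) * Q⁻¹ * D⁻¹ * (S 0)⁻¹ := by rw [h2.eq]
    _ = _ := by group

/-- the image of `β` under conjugation by `S 0` -/
theorem S0_bel : S 0 * bel S n * (S 0)⁻¹ = bel S n * UU S n 1 * bel S n * (bel S n * UU S n 1)⁻¹ := by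
  have hn := h.two
  have h0 := h.left.om0 (by omega)
  obtain ⟨W, hW, hSW⟩ := h.P'_eq
  have h1 := h.S0_U1
  have h2 := h.U_sq 1
  have hu : (UU S n 1)⁻¹ = UU S n 1 := inv_eq_of_mul_eq_one_left h2
  have e1 : bel S n = (S 0 * DD S (n - 1)) ^ n * W * UU S n 1 := by rw [bel, hW, mul_assoc]
  have h3 : Commute (S 0) ((S 0 * DD S (n - 1)) ^ n * W) := h0.symm.mul_right hSW
  generalize (S 0 * DD S (n - 1)) ^ n * W = V at e1 h3
  have e2 : V = bel S n * UU S n 1 := by
    rw [e1, mul_assoc, h2, mul_one]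
  have h4 : S 0 * V * (S 0)⁻¹ = V := by rw [h3.eq, mul_inv_cancel_right]
  calc S 0 * bel S n * (S 0)⁻¹ = (S 0 * V * (S 0)⁻¹) * (S 0 * UU S n 1 * (S 0)⁻¹) := by
        rw [e1]; group
    _ = bel S n * UU S n 1 * (bel S n * UU S n 1 * (bel S n)⁻¹) := by rw [h4, h1, e2]
    _ = bel S n * UU S n 1 * bel S n * (bel S n * UU S n 1)⁻¹ := by
        rw [mul_inv_rev, hu]; group

end BB

end Pool.Agent.H10.BT
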