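import Pool.Agent.H10.BT.Act
import Pool.Agent.H10.BT.Alp

/-!
# The embedding of the Artin group of affine type `B`

`iot` embeds `Art (cmBt m)` in the semidirect product of `Phi` and `Art (cmBf m)`.
-/

set_option autoImplicit false

namespace Pool.Agent.H10.BT

open Pool.Agent.H52.PAG Pool.Agent.H98.DT Pool.Agent.H10.DT

/-- equivariance on the generators is equivariance -/
theorem compat_art {B : Type} (M : CoxeterMatrix B) {P G : Type*} [Group P] [Group G] (ρ : Art M →* MulAut P)
    (ψA : Art M →* G) (ψP : P →* G)
    (h : ∀ i x, ψP (ρ (gen M i) x) = ψA (gen M i) * ψP x * (ψA (gen M i))⁻¹) (g : Art M) :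
    ∀ x : P, ψP (ρ g x) = ψA g * ψP x * (ψA g)⁻¹ := by
  induction g using art_induction with
  | h1 => intro x; simp
  | h2 g i hg =>
    intro x
    rw [map_mul, MulAut.mul_apply, hg, h, map_mul]
    group
  | h3 g i hg =>
    intro x
    have h1 := h i ((ρ (gen M i))⁻¹ x)
    rw [MulAut.apply_inv_self] at h1
    rw [map_mul, MulAut.mul_apply, hg, map_inv, map_mul, map_inv, h1]
    group

section Twin

variable {m : ℕ} {G : Type*} [Group G]

/-- the last vertex -/
def la (m : ℕ) : Fin (m + 3) := ⟨m + 2, by omega⟩

/-- the conjugate of the last generator by an involution -/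
theorem BfRel.twin {b : Fin (m + 3) → G} (h : BfRel b) {s : G} (hs : s * s = 1)
    (hsb : ∀ k, k ≠ la m → s * b k = b k * s) (he : b (la m) * s * b (la m) * s = s * b (la m) * s * b (la m)) :
    BtRel b (s * b (la m) * s) where
  b4 := h.b4
  br := h.br
  co := h.co
  qbr k hk := by
    have h3 : b (la m) * b k * b (la m) = b k * b (la m) * b k := by
      have hl : k.val + 1 = (la m).val := by
        change k.val + 1 = m + 2
        omega
      exact (h.br k (la m) (by omega) hl).symm
    have h5 : s * b k = b k * s := hsb k fun h6 => by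
      have : k.val = m + 2 := congrArg Fin.val h6
      omega
    generalize b (la m) = e at h3 ⊢
    calc s * e * s * b k * (s * e * s) = s * e * (s * b k) * s * e * s := by group
      _ = s * e * b k * (s * s) * e * s := by
        rw [h5]
        group
      _ = s * (e * b k * e) * s := by
        rw [hs]
        group
      _ = (s * b k) * e * (b k * s) := by
        rw [h3]
        group
      _ = (b k * s) * e * (s * b k) := by rw [h5]
      _ = b k * (s * e * s) * b k := by group
  qco k hk := by
    by_cases hkl : k = la m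
    · subst hkl
      generalize b (la m) = e at he ⊢
      calc s * e * s * e = e * s * e * s := he.symm
        _ = e * (s * e * s) := by group
    · have hkv : k.val ≠ m + 2 := fun h1 => hkl (Fin.ext h1)
      have h3 : b (la m) * b k = b k * b (la m) := (h.co k (la m) (by
        change k.val + 2 ≤ m + 2
        omega)).symm
      have h5 : s * b k = b k * s := hsb k hkl
      generalize b (la m) = e at h3 ⊢
      calc s * e * s * b k = s * e * (s * b k) := by group
        _ = s * (e * b k) * s := by
          rw [h5]
          group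
        _ = (s * b k) * e * s := by
          rw [h3]
          group
        _ = b k * (s * e * s) := by
          rw [h5]
          group

end Twin

section Swap

variable (m : ℕ)

/-- the exchange of the two leaves -/
def sw : Option (Fin (m + 3)) → Option (Fin (m + 3))
  | none => some (la m)
  | some k => if k.val = m + 2 then none else some k

theorem sw_sw (x : Option (Fin (m + 3))) : sw m (sw m x) = x := by
  rcases x with _ | k
  · simp [sw, la]
  · by_cases h : k.val = m + 2
    · have : k = la m := Fin.ext h
      simp [sw, la, this]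
    · simp [sw, h]

theorem sw_lab (x y : Option (Fin (m + 3))) : cmBt m (sw m x) (sw m y) = cmBt m x y := by
  rw [cmBt_apply, cmBt_apply]
  have key : ∀ k : Fin (m + 3), k.val ≠ m + 2 → lB (m + 2) k = if k.val = m + 1 then 3 else 2 := by
    intro k hk
    simp only [lB]
    split_ifs <;> omega
  rcases x with _ | k <;> rcases y with _ | l
  · simp [sw, lBt, la, lB]
  · by_cases h : l.val = m + 2
    · simp [sw, lBt, la, h]
    · simp only [sw, if_neg h, lBt]
      exact key l h
  · by_cases h : k.val = m + 2
    · simp [sw, lBt, la, h]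
    · simp only [sw, if_neg h, lBt]
      rw [lB_symm]
      exact key k h
  · by_cases h : k.val = m + 2
    · by_cases h' : l.val = m + 2
      · simp [sw, lBt, lB, h, h']
      · simp only [sw, if_neg h', if_pos h, lBt]
        rw [h]
        exact (key l h').symm
    · by_cases h' : l.val = m + 2
      · simp only [sw, if_neg h, if_pos h', lBt]
        rw [h', lB_symm]
        exact (key k h).symm
      · simp only [sw, if_neg h, if_neg h', lBt]

/-- the automorphism -/
def swE : MulAut (Art (cmBt m)) :=
  MonoidHom.toMulEquiv (relab _ _ (sw m) (sw_lab m)) (relab _ _ (sw m) (sw_lab m))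
    (art_ext fun i => by rw [MonoidHom.comp_apply, relab_gen, relab_gen, sw_sw]; rfl)
    (art_ext fun i => by rw [MonoidHom.comp_apply, relab_gen, relab_gen, sw_sw]; rfl)

theorem swE_gen (x : Option (Fin (m + 3))) : swE m (gen _ x) = gen _ (sw m x) :=
  relab_gen (cmBt m) (cmBt m) (sw m) (sw_lab m) x

theorem swE_swE : swE m * swE m = 1 := by
  have h : (swE m * swE m).toMonoidHom = (1 : MulAut (Art (cmBt m))).toMonoidHom := by
    apply art_ext
    intro i
    change swE m (swE m (gen _ i)) = gen _ i
    rw [swE_gen, swE_gen, sw_sw]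
  ext x : 1
  exact DFunLike.congr_fun h x

/-- the extension by the exchange of the leaves -/
abbrev G1 : Type := Art (cmBt m) ⋊[liftC (swE m) (swE_swE m)] C2

/-- the generators -/
def SS (k : ℕ) : G1 m :=
  if h : k < m + 3 then SemidirectProduct.inl (gen _ (some ⟨k, h⟩)) else SemidirectProduct.inr t2

theorem SS_lt {k : ℕ} (h : k < m + 3) : SS m k = SemidirectProduct.inl (gen _ (some ⟨k, h⟩)) := dif_pos h

theorem SS_last : SS m (m + 3) = SemidirectProduct.inr t2 := dif_neg (lt_irrefl _)

theorem inr_sq : (SemidirectProduct.inr t2 : G1 m) * SemidirectProduct.inr t2 = 1 := by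
  rw [← map_mul, t2_mul, map_one]

theorem inr_inl (x : Art (cmBt m)) : (SemidirectProduct.inr t2 : G1 m) * SemidirectProduct.inl x =
    SemidirectProduct.inl (swE m x) * SemidirectProduct.inr t2 := by
  have h1 := SemidirectProduct.inl_aut (φ := liftC (swE m) (swE_swE m)) t2 x
  rw [liftC_t2] at h1
  rw [h1, map_inv]
  group

theorem SS_rel : BB (SS m) (m + 3) where
  two := by omega
  sqn := by rw [SS_last]; exact inr_sq m
  b0 := by
    rw [SS_lt m (by omega : 0 < m + 3), SS_lt m (by omega : 1 < m + 3)]
    simp only [← map_mul]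
    have h1 := (btrel_gen m).b4
    have e1 : (⟨1, by omega⟩ : Fin (m + 3)) = 1 := Fin.ext (one_val m).symm
    rw [e1]
    exact congrArg _ h1
  bn := by
    have e1 : m + 3 - 1 = m + 2 := rfl
    rw [e1, SS_last, SS_lt m (by omega : m + 2 < m + 3)]
    have h2 : swE m (gen _ (some (⟨m + 2, by omega⟩ : Fin (m + 3)))) = gen _ none := by
      rw [swE_gen]
      simp [sw]
    have h3 := (btrel_gen m).qco ⟨m + 2, by omega⟩ (by simp)
    have h4 := inr_sq m
    have h5 := inr_inl m (gen _ (some (⟨m + 2, by omega⟩ : Fin (m + 3))))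
    rw [h2] at h5
    have h6 : (SemidirectProduct.inl (gen (cmBt m) none) : G1 m) *
        SemidirectProduct.inl (gen _ (some (⟨m + 2, by omega⟩ : Fin (m + 3)))) =
        SemidirectProduct.inl (gen _ (some (⟨m + 2, by omega⟩ : Fin (m + 3)))) *
          SemidirectProduct.inl (gen (cmBt m) none) := by
      rw [← map_mul, ← map_mul]
      exact congrArg _ h3
    generalize (SemidirectProduct.inl (gen _ (some (⟨m + 2, by omega⟩ : Fin (m + 3)))) : G1 m) = b at h5 h6 ⊢
    generalize (SemidirectProduct.inl (gen (cmBt m) none) : G1 m) = q at h5 h6 ⊢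
    generalize (SemidirectProduct.inr t2 : G1 m) = s at h4 h5 ⊢
    calc s * b * s * b = q * (s * s) * b := by rw [h5]; group
      _ = b * q * (s * s) := by rw [h4, mul_one, mul_one, h6]
      _ = b * (s * b) * s := by rw [h5]; group
      _ = _ := by group
  braid k hk hkn := by
    rw [SS_lt m (by omega : k < m + 3), SS_lt m hkn]
    simp only [← map_mul]
    exact congrArg _ ((btrel_gen m).br ⟨k, by omega⟩ ⟨k + 1, hkn⟩ hk rfl)
  comm j k hjk hk := by
    rcases Nat.lt_or_ge k (m + 3) with h1 | h1
    · rw [SS_lt m (by omega : j < m + 3), SS_lt m h1]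
      simp only [← map_mul]
      exact congrArg _ ((btrel_gen m).co ⟨j, by omega⟩ ⟨k, h1⟩ hjk)
    · have hk' : k = m + 3 := by omega
      subst hk'
      rw [SS_lt m (by omega : j < m + 3), SS_last, inr_inl, swE_gen]
      have : sw m (some (⟨j, by omega⟩ : Fin (m + 3))) = some ⟨j, by omega⟩ := by
        simp only [sw]
        rw [if_neg (by omega)]
      rw [this]

end Swap

section Emb

variable (m : ℕ)

theorem SS_bf : BfRel (fun k : Fin (m + 3) => SS m k) where
  b4 := by
    have h := (SS_rel m).b0
    change SS m ((0 : Fin (m + 3)) : ℕ) * SS m ((1 : Fin (m + 3)) : ℕ) * SS m ((0 : Fin (m + 3)) : ℕ) *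
      SS m ((1 : Fin (m + 3)) : ℕ) = SS m ((1 : Fin (m + 3)) : ℕ) * SS m ((0 : Fin (m + 3)) : ℕ) *
      SS m ((1 : Fin (m + 3)) : ℕ) * SS m ((0 : Fin (m + 3)) : ℕ)
    rw [one_val]
    exact h
  br k l hk h := by
    have h1 := (SS_rel m).braid k hk (by omega)
    rw [h] at h1
    exact h1
  co k l h := (SS_rel m).comm k l h (by omega)

/-- the homomorphism on the factor `Art (cmBf m)` -/
def psA : Art (cmBf m) →* G1 m := liftBf (SS_bf m)

/-- the homomorphism on the factor `Phi` -/
def psP : Phi (Fin (m + 3)) →* G1 m :=
  liftP (bel (SS m) (m + 3)) (fun k => UU (SS m) (m + 3) (k.val + 1)) fun _ => (SS_rel m).U_sq _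

theorem psP_pu (k : Fin (m + 3)) : psP m (pu k) = UU (SS m) (m + 3) (k.val + 1) := liftP_pu _ _ _ _

theorem psP_pa : psP m pa = bel (SS m) (m + 3) := liftP_pa _ _ _

theorem ps_gen (i : Fin (m + 3)) (x : Phi (Fin (m + 3))) :
    psP m (rhoB m (gen _ i) x) = psA m (gen _ i) * psP m x * (psA m (gen _ i))⁻¹ := by
  have hA : psA m (gen _ i) = SS m i := liftBf_b _ _
  rw [rhoB_gen, hA]
  suffices h : (psP m).comp (ab m i).toMonoidHom = (MulAut.conj (SS m i)).toMonoidHom.comp (psP m) from
    DFunLike.congr_fun h x
  have hR := SS_rel m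
  by_cases hi : i.val = 0
  · have h1 : ∀ y, (ab m i) y = tau i y := fun y => by rw [ab, dif_pos hi]; rfl
    refine phi_ext ?_ fun l => ?_
    · simp only [MonoidHom.comp_apply, MulEquiv.coe_toMonoidHom, h1, MulAut.conj_apply]
      rw [tau_pa, map_mul, map_mul, map_mul, map_inv, map_mul, psP_pa, psP_pu, hi]
      exact hR.S0_bel.symm
    · simp only [MonoidHom.comp_apply, MulEquiv.coe_toMonoidHom, h1, MulAut.conj_apply]
      by_cases hl : l = i
      · subst hl
        rw [tau_pu, map_mul, map_mul, map_inv, psP_pa, psP_pu, hi]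
        exact hR.S0_U1.symm
      · rw [tau_pu_ne hl, psP_pu, hi]
        have hl0 : l.val ≠ 0 := fun h2 => hl (Fin.ext (h2.trans hi.symm))
        have h2 := hR.U0_comm (l.val + 1) (by omega) (by omega)
        rw [h2.eq, mul_inv_cancel_right]
  · have h1 : ∀ y, (ab m i) y = bet (pv i) i y := fun y => by rw [ab, dif_neg hi]; rfl
    have hpv : (pv i).val + 1 = i.val := by
      change i.val - 1 + 1 = i.val
      omega
    have hne := pv_ne hi
    refine phi_ext ?_ fun l => ?_
    · simp only [MonoidHom.comp_apply, MulEquiv.coe_toMonoidHom, h1, MulAut.conj_apply]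
      rw [bet_pa, psP_pa, (hR.bel_comm i.val (by omega) (by omega)).eq, mul_inv_cancel_right]
    · simp only [MonoidHom.comp_apply, MulEquiv.coe_toMonoidHom, h1, MulAut.conj_apply]
      by_cases hl : l = pv i
      · subst hl
        rw [bet_i, map_mul, map_mul, psP_pu, psP_pu, hpv]
        exact (hR.U_self i.val (by omega) (by omega)).symm
      · by_cases hl2 : l = i
        · subst hl2
          rw [bet_j hne, psP_pu, psP_pu, hpv]
          exact (BB.U_succ l.val (by omega)).symm
        · rw [bet_l hl hl2, psP_pu]
          have h3 : l.val + 1 ≠ i.val := fun h4 => hl (Fin.ext (by omega))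
          have h4 : l.val ≠ i.val := fun h5 => hl2 (Fin.ext h5)
          have h2 := hR.U_comm i.val (l.val + 1) (by omega) (by omega) (by omega) (by omega) h3 (by omega)
          rw [h2.eq, mul_inv_cancel_right]

/-- the semidirect product -/
abbrev EB : Type := Phi (Fin (m + 3)) ⋊[rhoB m] Art (cmBf m)

/-- the retraction -/
def psi : EB m →* G1 m :=
  SemidirectProduct.lift (psP m) (psA m) (fun g => MonoidHom.ext fun x =>
    compat_art (cmBf m) (rhoB m) (psA m) (psP m) (ps_gen m) g x)

theorem inr_conj (g : Art (cmBf m)) (x : Phi (Fin (m + 3))) :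
    (SemidirectProduct.inr g : EB m) * SemidirectProduct.inl x =
      SemidirectProduct.inl (rhoB m g x) * SemidirectProduct.inr g := by
  rw [SemidirectProduct.inl_aut, map_inv]
  group

theorem rho_last : rhoB m (gen _ (la m)) (pu (la m)) = pu (pv (la m)) := by
  have h1 : (la m).val ≠ 0 := by
    change m + 2 ≠ 0
    omega
  rw [rhoB_gen, ab, dif_neg h1, betE_apply, bet_j (pv_ne h1)]

theorem rho_last' : rhoB m (gen _ (la m)) (pu (pv (la m))) = pu (pv (la m)) * pu (la m) * pu (pv (la m)) := by
  have h1 : (la m).val ≠ 0 := by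
    change m + 2 ≠ 0
    omega
  rw [rhoB_gen, ab, dif_neg h1, betE_apply, bet_i]

theorem rho_other {k : Fin (m + 3)} (hk : k ≠ la m) : rhoB m (gen _ k) (pu (la m)) = pu (la m) := by
  have hk' : k.val ≠ m + 2 := fun h => hk (Fin.ext h)
  rw [rhoB_gen, ab]
  split_ifs with h1
  · rw [tauE_apply, tau_pu_ne hk.symm]
  · rw [betE_apply, bet_l _ hk.symm]
    intro h2
    have h3 : m + 2 = k.val - 1 := congrArg Fin.val h2
    omega

/-- the relations in the semidirect product -/
theorem iot_rel : BtRel (fun k : Fin (m + 3) => (SemidirectProduct.inr (gen (cmBf m) k) : EB m))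
    (SemidirectProduct.inl (pu (la m)) * SemidirectProduct.inr (gen (cmBf m) (la m)) *
      SemidirectProduct.inl (pu (la m))) := by
  have hb : BfRel (fun k : Fin (m + 3) => (SemidirectProduct.inr (gen (cmBf m) k) : EB m)) :=
    { b4 := by
        simp only [← map_mul]
        exact congrArg _ (bfrel_gen m).b4
      br := fun k l hk h => by
        simp only [← map_mul]
        exact congrArg _ ((bfrel_gen m).br k l hk h)
      co := fun k l h => by
        simp only [← map_mul]
        exact congrArg _ ((bfrel_gen m).co k l h) }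
  refine hb.twin ?_ ?_ ?_
  · rw [← map_mul, pu_mul_pu, map_one]
  · intro k hk
    rw [inr_conj, rho_other m hk]
  · have h1 := inr_conj m (gen _ (la m)) (pu (la m))
    have h2 := inr_conj m (gen _ (la m)) (pu (pv (la m)))
    rw [rho_last] at h1
    rw [rho_last', map_mul, map_mul] at h2
    have h3 : (SemidirectProduct.inl (pu (pv (la m))) : EB m) * SemidirectProduct.inl (pu (pv (la m))) = 1 := by
      rw [← map_mul, pu_mul_pu, map_one]
    generalize (SemidirectProduct.inr (gen (cmBf m) (la m)) : EB m) = b at h1 h2 ⊢
    generalize (SemidirectProduct.inl (pu (la m)) : EB m) = s at h1 h2 ⊢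
    generalize (SemidirectProduct.inl (pu (pv (la m))) : EB m) = t at h1 h2 h3 ⊢
    calc b * s * b * s = (b * s) * (b * s) := by group
      _ = t * (b * t) * b := by rw [h1]; group
      _ = (t * t) * s * t * b * b := by rw [h2]; group
      _ = s * (b * s) * b := by rw [h3, h1]; group
      _ = _ := by group

/-- the embedding -/
def iot : Art (cmBt m) →* EB m := liftBt (iot_rel m)

theorem psi_iot (x : Art (cmBt m)) : psi m (iot m x) = SemidirectProduct.inl x := by
  have h : (psi m).comp (iot m) = SemidirectProduct.inl := by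
    apply bt_ext
    · intro k
      rw [MonoidHom.comp_apply, iot, liftBt_b, psi, SemidirectProduct.lift_inr, psA, liftBf_b]
      exact SS_lt m k.2
    · rw [MonoidHom.comp_apply, iot, liftBt_q, map_mul, map_mul, psi, SemidirectProduct.lift_inr,
        SemidirectProduct.lift_inl, psA, liftBf_b, psP_pu]
      have h1 : (la m).val + 1 = m + 3 := rfl
      rw [h1, (SS_rel m).U_last, SS_last, SS_lt m (la m).2, inr_inl, swE_gen]
      have h2 : sw m (some (⟨(la m).val, (la m).2⟩ : Fin (m + 3))) = none := by simp [sw, la]
      rw [h2, mul_assoc, inr_sq, mul_one]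
  exact DFunLike.congr_fun h x

theorem iot_inj : Function.Injective (iot m) := by
  intro x y h
  have := congrArg (psi m) h
  rw [psi_iot, psi_iot] at this
  exact SemidirectProduct.inl_injective this

end Emb

end Pool.Agent.H10.BT
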