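import Pool.Agent.H10.BT.Emb
import Pool.Agent.H10.DT.Fk
import Pool.Agent.H52.DT.Clo

/-!
# The Artin group of affine type `B` is in the class

`Art (cmBt m)` maps to `Art (cmBf m) × Art (cmDf m)` with free kernel.
-/

set_option autoImplicit false

namespace Pool.Agent.H10.BT

open Pool.Agent.H52.PAG Pool.Agent.H98.DT Pool.Agent.H10.DT Pool.Agent.H98.FJ

section Ga

variable {I : Type} [DecidableEq I]

/-- the braid automorphism of the free product -/
def gE (i j : I) (h : i ≠ j) : MulAut (Ga I) :=
  MonoidHom.toMulEquiv (bG i j) (bG j i) (MonoidHom.ext fun x => bG_bG h.symm x)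
    (MonoidHom.ext fun x => bG_bG h x)

theorem gE_apply (i j : I) (h : i ≠ j) (x : Ga I) : gE i j h x = bG i j x := rfl

omit [DecidableEq I] in
theorem iG_inj {x y : Ga I} (h : (iG x : Phi I) = iG y) : x = y := SemidirectProduct.inr_injective h

theorem betE_iG (i j : I) (h : i ≠ j) (x : Ga I) : betE i j h (iG x) = iG (gE i j h x) := bet_iG i j x

theorem gE_braid {i j k : I} (hij : i ≠ j) (hjk : j ≠ k) (hik : i ≠ k) :
    gE i j hij * gE j k hjk * gE i j hij = gE j k hjk * gE i j hij * gE j k hjk := by
  ext x : 1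
  apply iG_inj
  have h1 := DFunLike.congr_fun (bet_braid hij hjk hik) (iG x)
  rw [mul3, mul3] at h1
  simp only [betE_iG] at h1
  exact h1

theorem gE_comm {i j k l : I} (hij : i ≠ j) (hkl : k ≠ l) (hik : i ≠ k) (hil : i ≠ l) (hjk : j ≠ k) (hjl : j ≠ l) :
    gE i j hij * gE k l hkl = gE k l hkl * gE i j hij := by
  ext x : 1
  apply iG_inj
  have h1 := DFunLike.congr_fun (bet_comm hij hkl hik hil hjk hjl) (iG x)
  rw [MulAut.mul_apply, MulAut.mul_apply] at h1
  simp only [betE_iG] at h1
  exact h1

/-- the projection -/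
def rt : Phi I →* Ga I := SemidirectProduct.rightHom

omit [DecidableEq I] in
theorem rt_pa : rt (pa : Phi I) = 1 := rfl

omit [DecidableEq I] in
theorem rt_pu (l : I) : rt (pu l) = s l := rfl

theorem rt_bet (i j : I) (x : Phi I) : rt (bet i j x) = bG i j (rt x) := by
  suffices h : rt.comp (bet i j) = (bG i j).comp rt from DFunLike.congr_fun h x
  refine phi_ext ?_ fun l => ?_
  · rw [MonoidHom.comp_apply, MonoidHom.comp_apply, bet_pa, rt_pa, map_one]
  · rw [MonoidHom.comp_apply, MonoidHom.comp_apply, bet_pu, rt_pu, bG_s, map_bsG]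
    rfl

theorem rt_tau (i : I) (x : Phi I) : rt (tau i x) = rt x := by
  suffices h : rt.comp (tau i) = rt from DFunLike.congr_fun h x
  refine phi_ext ?_ fun l => ?_
  · rw [MonoidHom.comp_apply, tau_pa, map_mul, map_mul, map_mul, map_inv, map_mul, rt_pa]
    group
  · by_cases h : l = i
    · subst h
      rw [MonoidHom.comp_apply, tau_pu, map_mul, map_mul, map_inv, rt_pa]
      group
    · rw [MonoidHom.comp_apply, tau_pu_ne h]

end Ga

section Hol

variable (m : ℕ)

/-- the automorphisms of the generators -/
def ag (k : Fin (m + 3)) : MulAut (Ga (Fin (m + 3))) :=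
  if h : k.val = 0 then 1 else gE (pv k) k (pv_ne h)

theorem ag_rel : BfRel (ag m) where
  b4 := by
    have h0 : ag m 0 = 1 := dif_pos rfl
    rw [h0]
    group
  br k l hk h := by
    have hk0 : k.val ≠ 0 := by omega
    have hl0 : l.val ≠ 0 := by omega
    have h2 : pv l = k := Fin.ext (by simp only [pv]; omega)
    have h3 : ag m l = gE k l (by rw [← h2]; exact pv_ne hl0) := by
      rw [ag, dif_neg hl0]
      congr 1
    rw [h3, ag, dif_neg hk0]
    apply gE_braid
    intro h4
    have := congrArg Fin.val h4
    simp only [pv] at this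
    omega
  co k l h := by
    have hl0 : l.val ≠ 0 := by omega
    have hlv : (pv l).val = l.val - 1 := rfl
    have hkv : (pv k).val = k.val - 1 := rfl
    by_cases hk0 : k.val = 0
    · rw [ag, dif_pos hk0, one_mul, mul_one]
    · rw [ag, dif_neg hk0, ag, dif_neg hl0]
      apply gE_comm
      · intro h4
        have := congrArg Fin.val h4
        omega
      · intro h4
        have := congrArg Fin.val h4
        omega
      · intro h4
        have := congrArg Fin.val h4
        omega
      · intro h4
        have := congrArg Fin.val h4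
        omega

/-- the action on the free product -/
def rhoG : Art (cmBf m) →* MulAut (Ga (Fin (m + 3))) := liftBf (ag_rel m)

theorem rhoG_gen (k : Fin (m + 3)) : rhoG m (gen _ k) = ag m k := liftBf_b _ _

/-- the holomorph -/
abbrev Hol : Type := Ga (Fin (m + 3)) ⋊[MonoidHom.id (MulAut (Ga (Fin (m + 3))))] MulAut (Ga (Fin (m + 3)))

/-- the homomorphism to the holomorph on the first factor -/
def omP : Phi (Fin (m + 3)) →* Hol m := SemidirectProduct.inl.comp rt

/-- the homomorphism to the holomorph on the second factor -/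
def omA : Art (cmBf m) →* Hol m := SemidirectProduct.inr.comp (rhoG m)

theorem om_gen (i : Fin (m + 3)) (x : Phi (Fin (m + 3))) :
    omP m (rhoB m (gen _ i) x) = omA m (gen _ i) * omP m x * (omA m (gen _ i))⁻¹ := by
  have h1 : omA m (gen _ i) * omP m x * (omA m (gen _ i))⁻¹ = SemidirectProduct.inl (ag m i (rt x)) := by
    have h2 := SemidirectProduct.inl_aut (φ := MonoidHom.id (MulAut (Ga (Fin (m + 3))))) (ag m i) (rt x)
    rw [MonoidHom.id_apply] at h2
    rw [h2, omA, MonoidHom.comp_apply, rhoG_gen, omP, MonoidHom.comp_apply, map_inv]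
  rw [h1, rhoB_gen, omP, MonoidHom.comp_apply]
  congr 1
  by_cases h : i.val = 0
  · rw [ab, dif_pos h, ag, dif_pos h, tauE_apply, rt_tau]
    rfl
  · rw [ab, dif_neg h, ag, dif_neg h, betE_apply, rt_bet]
    rfl

/-- the homomorphism to the holomorph -/
def Om : EB m →* Hol m :=
  SemidirectProduct.lift (omP m) (omA m) (fun g => MonoidHom.ext fun x =>
    compat_art (cmBf m) (rhoB m) (omA m) (omP m) (om_gen m) g x)

theorem Om_inl (x : Phi (Fin (m + 3))) : Om m (SemidirectProduct.inl x) = SemidirectProduct.inl (rt x) :=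
  SemidirectProduct.lift_inl _ _ _ _

/-- the composition -/
def FF : Art (cmBt m) →* Hol m := (Om m).comp (iot m)

theorem FF_zero : FF m (gen _ (some 0)) = 1 := by
  rw [FF, MonoidHom.comp_apply, iot, liftBt_b, Om, SemidirectProduct.lift_inr, omA, MonoidHom.comp_apply, rhoG_gen]
  have h0 : ag m 0 = 1 := dif_pos rfl
  rw [h0, map_one]

/-- the images of the generators under the second projection -/
def bD (k : Fin (m + 3)) : Art (cmDf m) :=
  if h : k.val = 0 then 1 else gen _ (some ⟨k.val - 1, by omega⟩)

theorem bD_rel : BtRel (bD m) (gen _ none) where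
  b4 := by
    have h0 : bD m 0 = 1 := dif_pos rfl
    rw [h0]
    group
  br k l hk h := by
    have hk0 : k.val ≠ 0 := by omega
    have hl0 : l.val ≠ 0 := by omega
    rw [bD, dif_neg hk0, bD, dif_neg hl0]
    exact (dfrel_gen m).br _ _ (by
      change k.val - 1 + 1 = l.val - 1
      omega)
  co k l h := by
    have hl0 : l.val ≠ 0 := by omega
    by_cases hk0 : k.val = 0
    · rw [bD, dif_pos hk0, one_mul, mul_one]
    · rw [bD, dif_neg hk0, bD, dif_neg hl0]
      exact (dfrel_gen m).co _ _ (by
        change k.val - 1 + 2 ≤ l.val - 1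
        omega)
  qbr k hk := by
    have hk0 : k.val ≠ 0 := by omega
    rw [bD, dif_neg hk0]
    exact (dfrel_gen m).qbr _ (by
      change k.val - 1 = m
      omega)
  qco k hk := by
    by_cases hk0 : k.val = 0
    · rw [bD, dif_pos hk0, one_mul, mul_one]
    · rw [bD, dif_neg hk0]
      exact (dfrel_gen m).qco _ (by
        change k.val - 1 ≠ m
        omega)

/-- the second projection -/
def p2 : Art (cmBt m) →* Art (cmDf m) := liftBt (bD_rel m)

/-- the first projection -/
def p1 : Art (cmBt m) →* Art (cmBf m) := SemidirectProduct.rightHom.comp (iot m)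

theorem chi_rel : DfRel (fun k : Fin (m + 2) => FF m (gen _ (some k.succ))) (FF m (gen _ none)) where
  br k l h := by
    simp only [← map_mul]
    exact congrArg _ ((btrel_gen m).br k.succ l.succ (by rw [Fin.val_succ]; omega)
      (by rw [Fin.val_succ, Fin.val_succ]; omega))
  co k l h := by
    simp only [← map_mul]
    exact congrArg _ ((btrel_gen m).co k.succ l.succ (by rw [Fin.val_succ, Fin.val_succ]; omega))
  qbr k h := by
    simp only [← map_mul]
    exact congrArg _ ((btrel_gen m).qbr k.succ (by rw [Fin.val_succ]; omega))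
  qco k h := by
    simp only [← map_mul]
    exact congrArg _ ((btrel_gen m).qco k.succ (by rw [Fin.val_succ]; omega))

/-- the homomorphism of the group of type `D` to the holomorph -/
def chi : Art (cmDf m) →* Hol m := liftDf (chi_rel m)

theorem chi_p2 (x : Art (cmBt m)) : chi m (p2 m x) = FF m x := by
  suffices h : (chi m).comp (p2 m) = FF m from DFunLike.congr_fun h x
  apply bt_ext
  · intro k
    rw [MonoidHom.comp_apply, p2, liftBt_b, bD]
    split_ifs with h
    · have h1 : k = 0 := Fin.ext h
      rw [h1, FF_zero, map_one]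
    · rw [chi, liftDf_b]
      have h1 : (⟨k.val - 1, by omega⟩ : Fin (m + 2)).succ = k := Fin.ext (by
        rw [Fin.val_succ]
        change k.val - 1 + 1 = k.val
        omega)
      rw [h1]
  · rw [MonoidHom.comp_apply, p2, liftBt_q, chi, liftDf_q]

/-- the embedding of the free group -/
def JJ : FL (Fin (m + 3)) →* EB m := SemidirectProduct.inl.comp iF

theorem JJ_inj : Function.Injective (JJ m) := SemidirectProduct.inl_injective.comp iF_inj

theorem iot_mem (x : Art (cmBt m)) (h1 : p1 m x = 1) (h2 : p2 m x = 1) : iot m x ∈ (JJ m).range := by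
  have h3 : (iot m x).right = 1 := h1
  have h4 : iot m x = SemidirectProduct.inl (iot m x).left := SemidirectProduct.ext rfl h3
  have h5 : FF m x = 1 := by rw [← chi_p2, h2, map_one]
  rw [FF, MonoidHom.comp_apply, h4, Om_inl] at h5
  have h6 : rt (iot m x).left = 1 := SemidirectProduct.inl_injective (h5.trans (map_one _).symm)
  refine ⟨(iot m x).left.left, ?_⟩
  have h7 := phi_eq (iot m x).left
  have h8 : (iot m x).left.right = 1 := h6
  rw [h8, map_one, mul_one] at h7
  rw [JJ, MonoidHom.comp_apply, ← h7, ← h4]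

theorem ker_free : IsFreeGroup ((p1 m).prod (p2 m)).ker := by
  have h1 : IsFreeGroup (JJ m).range := IsFreeGroup.ofMulEquiv (MonoidHom.ofInjective (JJ_inj m))
  let f : ((p1 m).prod (p2 m)).ker →* (JJ m).range :=
    ((iot m).comp ((p1 m).prod (p2 m)).ker.subtype).codRestrict _ (fun x => by
      have h2 : (p1 m).prod (p2 m) (x : Art (cmBt m)) = 1 := x.2
      exact iot_mem m _ (congrArg Prod.fst h2) (congrArg Prod.snd h2))
  refine free_of_injective f ?_ h1
  intro x y h
  have h3 : iot m x = iot m y := congrArg Subtype.val h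
  exact Subtype.ext (iot_inj m h3)

end Hol

/-- the Artin group of affine type `B` is in the class -/
theorem art_cmBt_mem {C : (G : Type) → [Group G] → Prop} (hC : Inherits C) (hE : Extension C) (hF : FreeByZ C) (m : ℕ)
    (hB : C (Art (cmBf m))) (hD : C (Art (cmDf m))) : C (Art (cmBt m)) :=
  fk hC hE hF (Art (cmBt m)) (Art (cmBf m) × Art (cmDf m)) ((p1 m).prod (p2 m))
    (Pool.Agent.H52.DT.mem_prod hC hB hD) (ker_free m)

end Pool.Agent.H10.BT
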